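import Pool.Agent.Helper72.FX.StK

set_option autoImplicit false

/-!
# Project FX, module ZT: transport of the property `ZZ` along a ring homomorphism
-/

open Pool.Agent.Helper72.FX

namespace Pool.Agent.Helper70.FX

section compat

variable {A A' : Type} [CommRing A] [CommRing A'] (φ : A' →+* A) (I : Ideal A)

/-- the two actions are compatible -/
private def Cpt (M : Type) [AddCommGroup M] [Module A M] [Module A' M] : Prop :=
  ∀ (a : A) (a' : A') (m : M), a - φ a' ∈ I → a • m = a' • m

private theorem cpt_phi {M : Type} [AddCommGroup M] [Module A M] [Module A' M]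
    (hc : Cpt φ I M) (a' : A') (m : M) : φ a' • m = a' • m :=
  hc _ _ _ (by rw [sub_self]; exact I.zero_mem)

private theorem fin_up {M : Type} [AddCommGroup M] [Module A M] [Module A' M]
    (hc : Cpt φ I M) (hf : Module.Finite A' M) : Module.Finite A M := by
  obtain ⟨S, hS⟩ := hf.fg_top
  refine ⟨⟨S, ?_⟩⟩
  let T : Submodule A' M :=
    { carrier := (Submodule.span A (S : Set M) : Set M)
      add_mem' := fun ha hb => Submodule.add_mem _ ha hb
      zero_mem' := Submodule.zero_mem _
      smul_mem' := fun c m hm => by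
        change c • m ∈ Submodule.span A (S : Set M)
        rw [← cpt_phi φ I hc]
        exact Submodule.smul_mem _ _ hm }
  have hT : T = ⊤ := by
    rw [eq_top_iff, ← hS, Submodule.span_le]
    intro m hm
    exact Submodule.subset_span hm
  rw [eq_top_iff]
  intro m _
  have : m ∈ T := by
    rw [hT]
    trivial
  exact this

private theorem fin_down {M : Type} [AddCommGroup M] [Module A M] [Module A' M]
    (hφ : ∀ a : A, ∃ a' : A', a - φ a' ∈ I)
    (hc : Cpt φ I M) (hf : Module.Finite A M) : Module.Finite A' M := by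
  obtain ⟨S, hS⟩ := hf.fg_top
  refine ⟨⟨S, ?_⟩⟩
  let T : Submodule A M :=
    { carrier := (Submodule.span A' (S : Set M) : Set M)
      add_mem' := fun ha hb => Submodule.add_mem _ ha hb
      zero_mem' := Submodule.zero_mem _
      smul_mem' := fun c m hm => by
        change c • m ∈ Submodule.span A' (S : Set M)
        obtain ⟨a', ha'⟩ := hφ c
        rw [hc c a' m ha']
        exact Submodule.smul_mem _ _ hm }
  have hT : T = ⊤ := by
    rw [eq_top_iff, ← hS, Submodule.span_le]
    intro m hm
    exact Submodule.subset_span hm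
  rw [eq_top_iff]
  intro m _
  have : m ∈ T := by
    rw [hT]
    trivial
  exact this

private theorem kil_up {M : Type} [AddCommGroup M] [Module A M] [Module A' M]
    (hc : Cpt φ I M) : kil I M := by
  intro a ha m
  rw [hc a 0 m (by rw [map_zero, sub_zero]; exact ha), zero_smul]

private def lin {M N : Type} [AddCommGroup M] [Module A M] [Module A' M]
    [AddCommGroup N] [Module A N] [Module A' N] (hφ : ∀ a : A, ∃ a' : A', a - φ a' ∈ I)
    (hM : Cpt φ I M) (hN : Cpt φ I N) (i : M →ₗ[A'] N) : M →ₗ[A] N where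
  toFun := i
  map_add' := map_add i
  map_smul' a m := by
    obtain ⟨a', ha'⟩ := hφ a
    rw [RingHom.id_apply, hM a a' m ha', hN a a' _ ha', map_smul]

end compat

section main

variable {A A' : Type} [CommRing A] [CommRing A'] (φ : A' →+* A) (I : Ideal A)
  (hφ : ∀ a : A, ∃ a' : A', a - φ a' ∈ I)

/-- the isomorphism of the quotients -/
private noncomputable def qe : (A' ⧸ I.comap φ) ≃+* (A ⧸ I) :=
  RingEquiv.ofBijective (Ideal.quotientMap I φ le_rfl)
    ⟨Ideal.quotientMap_injective, by
      intro y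
      obtain ⟨a, rfl⟩ := Ideal.Quotient.mk_surjective y
      obtain ⟨a', ha'⟩ := hφ a
      refine ⟨Ideal.Quotient.mk _ a', ?_⟩
      rw [Ideal.quotientMap_mk]
      exact (Ideal.Quotient.eq.2 ha').symm⟩

private theorem qe_mk (a' : A') :
    qe φ I hφ (Ideal.Quotient.mk (I.comap φ) a') = Ideal.Quotient.mk I (φ a') := rfl

/-- the ring homomorphism -/
private noncomputable def rh : A →+* (A' ⧸ I.comap φ) :=
  (qe φ I hφ).symm.toRingHom.comp (Ideal.Quotient.mk I)

private theorem rh_eq (a : A) (a' : A') (h : a - φ a' ∈ I) :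
    rh φ I hφ a = Ideal.Quotient.mk (I.comap φ) a' := by
  change (qe φ I hφ).symm (Ideal.Quotient.mk I a) = _
  rw [RingEquiv.symm_apply_eq, qe_mk]
  exact Ideal.Quotient.eq.2 h

/-- the module over `A` -/
@[reducible]
private noncomputable def modA (M : Type) [AddCommGroup M] [Module A' M]
    (h : kil (I.comap φ) M) : Module A M :=
  letI : Module (A' ⧸ I.comap φ) M :=
    Module.IsTorsionBySet.module (M := M) (I := I.comap φ) (fun m a => h a.1 a.2 m)
  Module.compHom M (rh φ I hφ)

private theorem modA_cpt (M : Type) [AddCommGroup M] [Module A' M] (h : kil (I.comap φ) M) :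
    @Cpt A A' _ _ φ I M _ (modA φ I hφ M h) _ := by
  intro a a' m ha
  letI i1 : Module (A' ⧸ I.comap φ) M :=
    Module.IsTorsionBySet.module (M := M) (I := I.comap φ) (fun m a => h a.1 a.2 m)
  change rh φ I hφ a • m = a' • m
  rw [rh_eq φ I hφ a a' ha]
  rfl

open scoped Classical in
/-- the transported additive function -/
private noncomputable def tr {Λ : Type} [AddCommGroup Λ] (χ : AF A (kil I) Λ) :
    AF A' (kil (I.comap φ)) Λ where
  f M _ _ := if h : kil (I.comap φ) M then @AF.f _ _ _ _ _ χ M _ (modA φ I hφ M h) else 0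
  exact' M N Q _ _ _ _ _ _ i p hf hN hi hip hp := by
    have hM : kil (I.comap φ) M := (gd_kil (I.comap φ)).inj M N i hi hN
    have hQ : kil (I.comap φ) Q := (gd_kil (I.comap φ)).surj N Q p hp hN
    rw [dif_pos hN, dif_pos hM, dif_pos hQ]
    letI i1 : Module A M := modA φ I hφ M hM
    letI i2 : Module A N := modA φ I hφ N hN
    letI i3 : Module A Q := modA φ I hφ Q hQ
    have c1 : Cpt φ I M := modA_cpt φ I hφ M hM
    have c2 : Cpt φ I N := modA_cpt φ I hφ N hN
    have c3 : Cpt φ I Q := modA_cpt φ I hφ Q hQ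
    exact χ.exact' M N Q (lin φ I hφ c1 c2 i) (lin φ I hφ c2 c3 p) (fin_up φ I c2 hf)
      (kil_up φ I c2) hi hip hp

private theorem tr_f {Λ : Type} [AddCommGroup Λ] (χ : AF A (kil I) Λ) (M : Type)
    [AddCommGroup M] [Module A' M] (h : kil (I.comap φ) M) :
    (tr φ I hφ χ).f M = @AF.f _ _ _ _ _ χ M _ (modA φ I hφ M h) := by
  classical
  change (if h : kil (I.comap φ) M then @AF.f _ _ _ _ _ χ M _ (modA φ I hφ M h) else 0) = _
  rw [dif_pos h]

end main

/-- **ZT** -/
theorem hZT : StZT := by
  intro A A' _ _ φ I x hφ hZ Λ _ χ hx h0 N _ _ hf hN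
  have key := hZ Λ (tr φ I hφ χ)
  have k1 : ∀ (M : Type) [AddCommGroup M] [Module A' M], Module.Finite A' M →
      kil (I.comap φ) M → (∀ y : M, x • y = 0) → (tr φ I hφ χ).f M = 0 := by
    intro M _ _ hfM hM hxM
    rw [tr_f φ I hφ χ M hM]
    letI i1 : Module A M := modA φ I hφ M hM
    have c1 : Cpt φ I M := modA_cpt φ I hφ M hM
    refine hx M (fin_up φ I c1 hfM) (kil_up φ I c1) ?_
    intro y
    rw [cpt_phi φ I c1]
    exact hxM y
  have k2 : (tr φ I hφ χ).f (A' ⧸ I.comap φ) = 0 := by
    have hM : kil (I.comap φ) (A' ⧸ I.comap φ) := kil_quot (I.comap φ)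
    rw [tr_f φ I hφ χ _ hM]
    letI i1 : Module A (A' ⧸ I.comap φ) := modA φ I hφ _ hM
    have c1 : Cpt φ I (A' ⧸ I.comap φ) := modA_cpt φ I hφ _ hM
    let e : (A' ⧸ I.comap φ) ≃ₗ[A] (A ⧸ I) :=
      { toFun := qe φ I hφ
        map_add' := map_add (qe φ I hφ)
        map_smul' := by
          intro a m
          obtain ⟨a', ha'⟩ := hφ a
          obtain ⟨b', rfl⟩ := Ideal.Quotient.mk_surjective m
          rw [RingHom.id_apply, c1 a a' _ ha']
          have e1 : (a' • (Ideal.Quotient.mk (I.comap φ) b') : A' ⧸ I.comap φ) =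
            Ideal.Quotient.mk (I.comap φ) (a' * b') := rfl
          rw [e1, qe_mk, qe_mk, map_mul, map_mul]
          have e2 : (a • (Ideal.Quotient.mk I (φ b')) : A ⧸ I) =
            Ideal.Quotient.mk I a * Ideal.Quotient.mk I (φ b') := rfl
          rw [e2, Ideal.Quotient.eq.2 ha']
        invFun := (qe φ I hφ).symm
        left_inv := (qe φ I hφ).left_inv
        right_inv := (qe φ I hφ).right_inv }
    rw [AF.equiv χ (gd_kil I) e inferInstance (kil_quot I), h0]
  letI i2 : Module A' N := Module.compHom N φ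
  have hN' : kil (I.comap φ) N := by
    intro a' ha' n
    change φ a' • n = 0
    exact hN _ ha' n
  have c2 : Cpt φ I N := by
    intro a a' n ha
    change a • n = φ a' • n
    have := hN _ ha n
    rw [sub_smul, sub_eq_zero] at this
    exact this
  have h1 := key k1 k2 N (fin_down φ I hφ c2 hf) hN'
  rw [tr_f φ I hφ χ N hN'] at h1
  have h2 : modA φ I hφ N hN' = (inferInstance : Module A N) := by
    refine Module.ext' _ _ ?_
    intro a n
    obtain ⟨a', ha'⟩ := hφ a
    have e1 := modA_cpt φ I hφ N hN' a a' n ha'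
    have e2 := c2 a a' n ha'
    exact e1.trans e2.symm
  rw [h2] at h1
  exact h1

end Pool.Agent.Helper70.FX
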