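import Pool.Agent.Helper84.FX.StT

set_option autoImplicit false

/-!
# Project FX, module BCX: the unit cube and its boundary are finite complexes of cells
-/

open Pool.Agent.Helper84.FX

namespace Pool.Agent.Helper70.FX

open Set

/-- the faces of the unit cube -/
private def FC (n : ℕ) : Finset (Cel n) :=
  ((Fintype.piFinset (fun _ : Fin n => ({0, 1} : Finset ℤ))) ×ˢ Finset.univ).filter
    (fun c => ∀ i ∈ c.2, c.1 i = 0)

private theorem mem_FC {n : ℕ} (c : Cel n) :
    c ∈ FC n ↔ (∀ i, c.1 i = 0 ∨ c.1 i = 1) ∧ ∀ i ∈ c.2, c.1 i = 0 := by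
  unfold FC
  rw [Finset.mem_filter, Finset.mem_product, Fintype.mem_piFinset]
  simp only [Finset.mem_insert, Finset.mem_singleton, Finset.mem_univ, and_true]

/-- the lower corner -/
private theorem lo_mem {n : ℕ} (c : Cel n) : (fun i => (c.1 i : ℝ)) ∈ cel c := by
  intro i
  exact ⟨fun _ => ⟨le_refl _, by linarith⟩, fun _ => rfl⟩

/-- a neighbour of the lower corner -/
private theorem nb_mem {n : ℕ} (c : Cel n) (j : Fin n) (hj : j ∈ c.2) :
    (fun i => (c.1 i : ℝ) + (if i = j then 1 else 0)) ∈ cel c := by
  intro i
  by_cases h : i = j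
  · subst h
    refine ⟨fun _ => ⟨?_, ?_⟩, fun h2 => absurd hj h2⟩
    · simp only [if_true]
      linarith
    · simp only [if_true]
      exact le_refl _
  · refine ⟨fun _ => ⟨?_, ?_⟩, fun _ => ?_⟩
    · simp only [if_neg h]
      linarith
    · simp only [if_neg h]
      linarith
    · simp only [if_neg h]
      linarith

private theorem mem_iff {n : ℕ} (c : Cel n) : c ∈ FC n ↔ cel c ⊆ Cb n := by
  rw [mem_FC]
  constructor
  · rintro ⟨h1, h2⟩ u hu i
    by_cases hi : i ∈ c.2
    · have h3 := (hu i).1 hi
      rw [h2 i hi] at h3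
      push_cast at h3
      exact ⟨h3.1, by linarith [h3.2]⟩
    · rw [(hu i).2 hi]
      rcases h1 i with h | h
      · rw [h]
        norm_num
      · rw [h]
        norm_num
  · intro h
    have h1 : ∀ i, (0 : ℝ) ≤ c.1 i ∧ (c.1 i : ℝ) ≤ 1 := fun i => h (lo_mem c) i
    have h1' : ∀ i, 0 ≤ c.1 i ∧ c.1 i ≤ 1 := fun i =>
      ⟨by exact_mod_cast (h1 i).1, by exact_mod_cast (h1 i).2⟩
    constructor
    · intro i
      have := h1' i
      omega
    · intro i hi
      have h2 := (h (nb_mem c i hi) i).2
      simp only [if_true] at h2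
      have h3 : c.1 i + 1 ≤ 1 := by exact_mod_cast h2
      have := h1' i
      omega

/-- **BCX** -/
theorem hBCX : StIFC → StBCX := by
  intro _ n
  refine ⟨FC n, (FC n).filter (fun c => c.2 ≠ Finset.univ), ?_, ?_, Finset.filter_subset _ _, ?_, ?_⟩
  · intro c hc c' hcc
    exact (mem_iff c').2 (hcc.trans ((mem_iff c).1 hc))
  · intro c hc c' hcc
    rw [Finset.mem_filter] at hc ⊢
    refine ⟨(mem_iff c').2 (hcc.trans ((mem_iff c).1 hc.1)), ?_⟩
    intro hu
    have hex : ∃ i, i ∉ c.2 := by
      by_contra hcon
      push Not at hcon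
      exact hc.2 (Finset.eq_univ_iff_forall.2 hcon)
    obtain ⟨i, hi⟩ := hex
    have h1 := (hcc (lo_mem c') i).2 hi
    have h2 := (hcc (nb_mem c' i (by rw [hu]; exact Finset.mem_univ i)) i).2 hi
    simp only [if_true] at h1 h2
    linarith
  · ext u
    constructor
    · rintro ⟨c, hc, hu⟩
      exact (mem_iff c).1 hc hu
    · intro hu
      refine ⟨((fun _ => 0), Finset.univ), ?_, ?_⟩
      · rw [mem_FC]
        exact ⟨fun _ => Or.inl rfl, fun _ _ => rfl⟩
      · intro i
        refine ⟨fun _ => ?_, fun h => absurd (Finset.mem_univ i) h⟩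
        have := hu i
        push_cast
        exact ⟨this.1, by linarith [this.2]⟩
  · ext u
    constructor
    · rintro ⟨c, hc, hu⟩
      rw [Finset.mem_filter] at hc
      refine ⟨(mem_iff c).1 hc.1 hu, ?_⟩
      have hex : ∃ i, i ∉ c.2 := by
        by_contra hcon
        push Not at hcon
        exact hc.2 (Finset.eq_univ_iff_forall.2 hcon)
      obtain ⟨i, hi⟩ := hex
      refine ⟨i, ?_⟩
      rw [(hu i).2 hi]
      rcases ((mem_FC c).1 hc.1).1 i with h | h
      · left
        rw [h]
        norm_num
      · right
        rw [h]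
        norm_num
    · rintro ⟨hu, i, hi⟩
      have key : ∀ e : ℤ, (e = 0 ∨ e = 1) → u i = e → u ∈ spt ((FC n).filter
          (fun c => c.2 ≠ Finset.univ)) := by
        intro e he hue
        refine ⟨((fun j => if j = i then e else 0), Finset.univ.erase i), ?_, ?_⟩
        · rw [Finset.mem_filter, mem_FC]
          refine ⟨⟨fun j => ?_, fun j hj => ?_⟩, ?_⟩
          · by_cases h : j = i
            · simp only [if_pos h]
              exact he
            · simp only [if_neg h]
              exact Or.inl trivial
          · exact if_neg (Finset.ne_of_mem_erase hj)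
          · intro h
            have := Finset.mem_univ i
            rw [← h] at this
            exact Finset.notMem_erase i _ this
        · intro j
          refine ⟨fun hj => ?_, fun hj => ?_⟩
          · have h := Finset.ne_of_mem_erase hj
            simp only [if_neg h]
            have := hu j
            push_cast
            exact ⟨this.1, by linarith [this.2]⟩
          · have h : j = i := by
              by_contra hne
              exact hj (Finset.mem_erase.2 ⟨hne, Finset.mem_univ _⟩)
            simp only [if_pos h]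
            rw [h]
            exact hue
      rcases hi with h | h
      · exact key 0 (Or.inl rfl) (by rw [h]; norm_num)
      · exact key 1 (Or.inr rfl) (by rw [h]; norm_num)

end Pool.Agent.Helper70.FX
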