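import Pool.Agent.Helper87.FX.StA

set_option autoImplicit false

/-!
# Project FX, module OEC: an open cell composed with a diffeomorphism is an open cell
-/

open Pool.Agent.Helper87.FX Set Topology
open scoped ContDiff

namespace Pool.Agent.Helper70.FX

/-- **OEC** -/
theorem hOEC : StCMP → StOEC := by
  intro hCMP E V _ _ _ _ _ _ X e θ he hθ
  have hh : IsHomeomorph θ := (hCMP E).2.2.2 θ hθ
  have hr : range (fun x => e (θ x)) = range e := hθ.bij.2.range_comp e
  refine ⟨⟨?_, ?_, ?_, ?_, ?_⟩, hr⟩
  · exact he.sm.comp hθ.sm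
  · intro x
    have h1 : DifferentiableAt ℝ e (θ x) := (he.sm.differentiable (by simp)) (θ x)
    have h2 : DifferentiableAt ℝ θ x := (hθ.sm.differentiable (by simp)) x
    have h3 : fderiv ℝ (fun y => e (θ y)) x = (fderiv ℝ e (θ x)).comp (fderiv ℝ θ x) :=
      fderiv_comp x h1 h2
    rw [h3]
    exact (he.imm (θ x)).comp (hθ.imm x)
  · exact he.emb.comp hh.isEmbedding
  · rw [hr]
    exact he.sub
  · rw [hr]
    exact he.opn

end Pool.Agent.Helper70.FX
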